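import Pool.Agent.H82.AS.Targets

/-!
# Triples with given divisors, of bounded height
-/

set_option autoImplicit false

open Pool.Agent.H38.RB Pool.Agent.H38.PS Pool.Agent.H82.AS

namespace Pool.Agent.H74.AS

/-- the area of the box -/
theorem area (A T : ℝ) (hA : 0 < A) (hT : 1 ≤ T) :
    A * min A (8 * T / A ^ 2) ≤ 4 * T ^ (2 / 3 : ℝ) := by
  have h1 : 0 < min A (8 * T / A ^ 2) := lt_min hA (by positivity)
  set B := min A (8 * T / A ^ 2) with hB
  have h2 : B ≤ A := min_le_left _ _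
  have h3 : B ≤ 8 * T / A ^ 2 := min_le_right _ _
  have h4 : B * A ^ 2 ≤ 8 * T := by rwa [le_div_iff₀ (by positivity)] at h3
  have h5 : (A * B) ^ 3 ≤ (4 * T ^ (2 / 3 : ℝ)) ^ 3 := by
    have e1 : (4 * T ^ (2 / 3 : ℝ)) ^ 3 = (8 * T) ^ 2 := by
      rw [mul_pow, ← Real.rpow_natCast (T ^ (2 / 3 : ℝ)) 3, ← Real.rpow_mul (by linarith)]
      norm_num
      ring
    rw [e1]
    calc (A * B) ^ 3 = (A ^ 3 * B ^ 2) * B := by ring
      _ ≤ (A ^ 3 * B ^ 2) * A := mul_le_mul_of_nonneg_left h2 (by positivity)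
      _ = (B * A ^ 2) ^ 2 := by ring
      _ ≤ (8 * T) ^ 2 := pow_le_pow_left₀ (by positivity) h4 2
  exact le_of_pow_le_pow_left₀ (by norm_num) (by positivity) h5

/-- one cell: the smallest entry is `x j`, and the size of `x k` is known up to the factor `2` -/
theorem cell (hP : T_PGN) (d : Fin 3 → ℕ) (T : ℝ) (hd : ∀ i, 1 ≤ d i)
    (hc : ∀ i j, i ≠ j → (d i).Coprime (d j)) (hT : 1 ≤ T) (j k l : Fin 3) (hjk : k ≠ j)
    (hall : ∀ i, i = j ∨ i = k ∨ i = l)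
    (hprod : ∀ x : Fin 3 → ℤ, x 0 * x 1 * x 2 = x j * x k * x l)
    (hsum : ∀ x : Fin 3 → ℤ, x 0 + x 1 + x 2 = x j + x k + x l) (m : ℕ)
    (F : Finset (Fin 3 → ℤ)) (hF : ∀ x ∈ F, Adm x ∧ (∀ i, (d i : ℤ) ∣ x i) ∧ (pr x : ℝ) ≤ T ∧
      |x j| ≤ |x k| ∧ |x j| ≤ |x l| ∧ (2 : ℝ) ^ m / 2 < |(x k : ℝ)| ∧ |(x k : ℝ)| ≤ 2 ^ m) :
    (F.card : ℝ) ≤ 64 * (T ^ (2 / 3 : ℝ) / ((d 0 : ℝ) * d 1 * d 2)) + 8 := by
  classical
  have hA : (0 : ℝ) < 2 ^ m := by positivity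
  have hs0 : ∀ x ∈ F, x l = -x j - x k := by
    intro x hx
    have := (hF x hx).1.2.2
    rw [hsum] at this
    linarith
  have hinj : Set.InjOn (fun x : Fin 3 → ℤ => (x k, x j)) (F : Set (Fin 3 → ℤ)) := by
    intro x hx y hy hxy
    simp only [Prod.mk.injEq] at hxy
    funext i
    rcases hall i with h | h | h
    · rw [h]; exact hxy.2
    · rw [h]; exact hxy.1
    · rw [h, hs0 x hx, hs0 y hy, hxy.1, hxy.2]
  have hcard : (F.image fun x : Fin 3 → ℤ => (x k, x j)).card = F.card :=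
    Finset.card_image_of_injOn hinj
  have hD1 : 1 ≤ d 0 * d 1 * d 2 := Nat.mul_pos (Nat.mul_pos (hd 0) (hd 1)) (hd 2)
  have key := hP (F.image fun x : Fin 3 → ℤ => (x k, x j)) (d 0 * d 1 * d 2) (2 ^ m)
    (min (2 ^ m) (8 * T / (2 ^ m) ^ 2)) hD1 hA (le_min hA.le (by positivity)) ?_ ?_
  · rw [hcard] at key
    refine key.trans ?_
    have h1 := area (2 ^ m) T hA hT
    have hDp : (0 : ℝ) < (d 0 : ℝ) * d 1 * d 2 := by exact_mod_cast hD1
    push_cast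
    have h2 : 16 * (2 : ℝ) ^ m * min (2 ^ m) (8 * T / (2 ^ m) ^ 2) ≤ 64 * T ^ (2 / 3 : ℝ) := by
      linarith
    have h3 : 16 * (2 : ℝ) ^ m * min (2 ^ m) (8 * T / (2 ^ m) ^ 2) / ((d 0 : ℝ) * d 1 * d 2) ≤
        64 * T ^ (2 / 3 : ℝ) / ((d 0 : ℝ) * d 1 * d 2) := div_le_div_of_nonneg_right h2 hDp.le
    rw [mul_div_assoc (64 : ℝ)] at h3
    linarith
  · intro P hP'
    obtain ⟨x, hx, rfl⟩ := Finset.mem_image.mp hP'
    obtain ⟨⟨hne, hcop, -⟩, -, hpr, hjk', hjl, hlo, hhi⟩ := hF x hx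
    refine ⟨hcop k j hjk, hlo, hhi, ?_⟩
    have hjr : |(x j : ℝ)| ≤ |(x k : ℝ)| := by exact_mod_cast hjk'
    have hlr : |(x j : ℝ)| ≤ |(x l : ℝ)| := by exact_mod_cast hjl
    refine le_min (hjr.trans hhi) ?_
    have hkl : |(x k : ℝ)| ≤ |(x j : ℝ)| + |(x l : ℝ)| := by
      have h := hs0 x hx
      have h' : (x k : ℝ) = -(x j : ℝ) - x l := by
        have : x k = -x j - x l := by linarith
        exact_mod_cast this
      rw [h']
      calc |-(x j : ℝ) - x l| ≤ |-(x j : ℝ)| + |(x l : ℝ)| := abs_sub _ _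
        _ = |(x j : ℝ)| + |(x l : ℝ)| := by rw [abs_neg]
    have hl4 : (2 : ℝ) ^ m / 4 ≤ |(x l : ℝ)| := by linarith
    have hpr' : |(x j : ℝ)| * |(x k : ℝ)| * |(x l : ℝ)| ≤ T := by
      have : ((pr x : ℕ) : ℝ) = |(x j : ℝ)| * |(x k : ℝ)| * |(x l : ℝ)| := by
        unfold pr
        rw [hprod, Nat.cast_natAbs]
        push_cast
        rw [abs_mul, abs_mul]
      rw [← this]
      exact hpr
    have h0 := abs_nonneg (x j : ℝ)
    rw [le_div_iff₀ (by positivity)]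
    have h5 : |(x j : ℝ)| * (2 ^ m / 2 * (2 ^ m / 4)) ≤ |(x j : ℝ)| * |(x k : ℝ)| * |(x l : ℝ)| := by
      rw [mul_assoc]
      apply mul_le_mul_of_nonneg_left _ h0
      exact mul_le_mul hlo.le hl4 (by positivity) (abs_nonneg _)
    nlinarith
  · intro P hP' Q hQ'
    obtain ⟨x, hx, rfl⟩ := Finset.mem_image.mp hP'
    obtain ⟨y, hy, rfl⟩ := Finset.mem_image.mp hQ'
    have hdx := (hF x hx).2.1
    have hdy := (hF y hy).2.1
    have hdiv : ∀ i, (d i : ℤ) ∣ x k * y j - x j * y k := by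
      intro i
      rcases hall i with h | h | h
      · rw [h]
        exact dvd_sub (Dvd.dvd.mul_left (hdy j) _) (Dvd.dvd.mul_right (hdx j) _)
      · rw [h]
        exact dvd_sub (Dvd.dvd.mul_right (hdx k) _) (Dvd.dvd.mul_left (hdy k) _)
      · have e : x k * y j - x j * y k = x j * y l - x l * y j := by
          rw [hs0 x hx, hs0 y hy]
          ring
        rw [h, e]
        exact dvd_sub (Dvd.dvd.mul_left (hdy l) _) (Dvd.dvd.mul_right (hdx l) _)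
    push_cast
    have c01 : IsCoprime (d 0 : ℤ) (d 1 : ℤ) := Nat.isCoprime_iff_coprime.mpr (hc 0 1 (by decide))
    have c02 : IsCoprime (d 0 : ℤ) (d 2 : ℤ) := Nat.isCoprime_iff_coprime.mpr (hc 0 2 (by decide))
    have c12 : IsCoprime (d 1 : ℤ) (d 2 : ℤ) := Nat.isCoprime_iff_coprime.mpr (hc 1 2 (by decide))
    exact (IsCoprime.mul_left c02 c12).mul_dvd (c01.mul_dvd (hdiv 0) (hdiv 1)) (hdiv 2)

/-- the number of cells -/
theorem cells (H : ℝ) (hH : 2 ≤ H) : ((Nat.clog 2 ⌊H⌋₊ + 1 : ℕ) : ℝ) ≤ 5 * Real.log H := by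
  have h2 : 2 ≤ ⌊H⌋₊ := Nat.le_floor (by exact_mod_cast hH)
  have h3 : 2 ^ (Nat.clog 2 ⌊H⌋₊ - 1) < ⌊H⌋₊ := Nat.pow_pred_clog_lt_self (by norm_num) (by omega)
  have h4 : 1 ≤ Nat.clog 2 ⌊H⌋₊ := Nat.clog_pos (by norm_num) h2
  have h5 : ((2 : ℝ)) ^ (Nat.clog 2 ⌊H⌋₊ - 1) ≤ H := by
    have : ((2 ^ (Nat.clog 2 ⌊H⌋₊ - 1) : ℕ) : ℝ) ≤ (⌊H⌋₊ : ℝ) := by exact_mod_cast h3.le
    push_cast at this
    exact this.trans (Nat.floor_le (by linarith))
  have h6 := Real.log_le_log (by positivity) h5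
  rw [Real.log_pow] at h6
  have h7 : Real.log 2 ≤ Real.log H := Real.log_le_log (by norm_num) hH
  have h8 := Real.log_two_gt_d9
  have h9 : ((Nat.clog 2 ⌊H⌋₊ - 1 : ℕ) : ℝ) = (Nat.clog 2 ⌊H⌋₊ : ℝ) - 1 := by
    rw [Nat.cast_sub h4, Nat.cast_one]
  rw [h9] at h6
  push_cast
  have h10 : (0 : ℝ) ≤ (Nat.clog 2 ⌊H⌋₊ : ℝ) - 1 := by
    have : (1 : ℝ) ≤ (Nat.clog 2 ⌊H⌋₊ : ℝ) := by exact_mod_cast h4
    linarith
  nlinarith

/-- (BXD) triples with given divisors, of bounded height. -/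
theorem pf_BXD (hP : T_PGN) : T_BXD := by
  classical
  refine ⟨960, by norm_num, ?_⟩
  intro d T H hd hc hT hH
  set S : Set (Fin 3 → ℤ) :=
    {x | Adm x ∧ (∀ i, (d i : ℤ) ∣ x i) ∧ (pr x : ℝ) ≤ T ∧ (ht x : ℝ) ≤ H} with hS
  have hbd : ∀ x ∈ S, ∀ i, (x i).natAbs ≤ ⌊H⌋₊ := by
    intro x hx i
    have h1 : ht x ≤ ⌊H⌋₊ := Nat.le_floor hx.2.2.2
    refine le_trans ?_ h1
    unfold ht
    fin_cases i
    · exact le_max_left _ _
    · exact (le_max_left _ _).trans (le_max_right _ _)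
    · exact (le_max_right _ _).trans (le_max_right _ _)
  have hfin : S.Finite := by
    apply (Set.finite_Icc (fun _ : Fin 3 => -(⌊H⌋₊ : ℤ)) (fun _ => (⌊H⌋₊ : ℤ))).subset
    intro x hx
    rw [Set.mem_Icc]
    constructor
    · intro i
      have := hbd x hx i
      simp only
      omega
    · intro i
      have := hbd x hx i
      simp only
      omega
  refine ⟨hfin, ?_⟩
  rw [Set.ncard_eq_toFinset_card _ hfin]
  set M := Nat.clog 2 ⌊H⌋₊ with hM
  -- the cells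
  let Fc : Fin 3 → ℕ → Finset (Fin 3 → ℤ) := fun j m => hfin.toFinset.filter fun x =>
    |x j| ≤ |x (j + 1)| ∧ |x j| ≤ |x (j + 2)| ∧ (2 : ℝ) ^ m / 2 < |(x (j + 1) : ℝ)| ∧
      |(x (j + 1) : ℝ)| ≤ 2 ^ m
  have hcover : hfin.toFinset ⊆ (Finset.univ : Finset (Fin 3)).biUnion fun j =>
      (Finset.range (M + 1)).biUnion fun m => Fc j m := by
    intro x hx
    have hxS : x ∈ S := by simpa using hx
    obtain ⟨j, -, hj⟩ := Finset.exists_min_image (Finset.univ : Finset (Fin 3)) (fun i => |x i|)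
      ⟨0, Finset.mem_univ _⟩
    have hn0 : x (j + 1) ≠ 0 := hxS.1.1 _
    have hpos : 1 ≤ (x (j + 1)).natAbs := Nat.pos_of_ne_zero (by simpa using hn0)
    set m := Nat.clog 2 (x (j + 1)).natAbs with hm
    have hup : (x (j + 1)).natAbs ≤ 2 ^ m := Nat.le_pow_clog (by norm_num) _
    have hlow : (2 : ℝ) ^ m / 2 < ((x (j + 1)).natAbs : ℝ) := by
      rcases Nat.eq_or_lt_of_le hpos with h | h
      · have : m = 0 := by rw [hm, ← h]; simp
        rw [this, ← h]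
        norm_num
      · have h1 : 2 ^ (m - 1) < (x (j + 1)).natAbs :=
          Nat.pow_pred_clog_lt_self (by norm_num) (by omega)
        have h2 : 1 ≤ m := Nat.clog_pos (by norm_num) h
        have h3 : ((2 ^ (m - 1) : ℕ) : ℝ) < ((x (j + 1)).natAbs : ℝ) := by exact_mod_cast h1
        push_cast at h3
        have h4 : (2 : ℝ) ^ m = 2 ^ (m - 1) * 2 := by
          rw [← pow_succ]
          congr 1
          omega
        rw [h4]
        linarith
    have habs : |(x (j + 1) : ℝ)| = ((x (j + 1)).natAbs : ℝ) := by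
      rw [Nat.cast_natAbs, Int.cast_abs]
    rw [Finset.mem_biUnion]
    refine ⟨j, Finset.mem_univ _, ?_⟩
    rw [Finset.mem_biUnion]
    refine ⟨m, ?_, ?_⟩
    · rw [Finset.mem_range]
      have : m ≤ M := Nat.clog_mono_right 2 (hbd x hxS (j + 1))
      omega
    · rw [Finset.mem_filter]
      refine ⟨hx, hj _ (Finset.mem_univ _), hj _ (Finset.mem_univ _), ?_, ?_⟩
      · rw [habs]; exact hlow
      · rw [habs]; exact_mod_cast hup
  have hcell : ∀ (j : Fin 3) (m : ℕ),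
      ((Fc j m).card : ℝ) ≤ 64 * (T ^ (2 / 3 : ℝ) / ((d 0 : ℝ) * d 1 * d 2)) + 8 := by
    intro j m
    have hmem : ∀ x ∈ Fc j m, Adm x ∧ (∀ i, (d i : ℤ) ∣ x i) ∧ (pr x : ℝ) ≤ T ∧
        |x j| ≤ |x (j + 1)| ∧ |x j| ≤ |x (j + 2)| ∧ (2 : ℝ) ^ m / 2 < |(x (j + 1) : ℝ)| ∧
          |(x (j + 1) : ℝ)| ≤ 2 ^ m := by
      intro x hx
      rw [Finset.mem_filter] at hx
      have hxS : x ∈ S := by simpa using hx.1
      exact ⟨hxS.1, hxS.2.1, hxS.2.2.1, hx.2⟩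
    refine cell hP d T hd hc hT j (j + 1) (j + 2) ?_ ?_ ?_ ?_ m (Fc j m) hmem
    · clear hmem
      revert j
      decide
    · clear hmem
      revert j
      decide
    · intro x
      fin_cases j
      · change x 0 * x 1 * x 2 = x 0 * x 1 * x 2
        rfl
      · change x 0 * x 1 * x 2 = x 1 * x 2 * x 0
        ring
      · change x 0 * x 1 * x 2 = x 2 * x 0 * x 1
        ring
    · intro x
      fin_cases j
      · change x 0 + x 1 + x 2 = x 0 + x 1 + x 2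
        rfl
      · change x 0 + x 1 + x 2 = x 1 + x 2 + x 0
        ring
      · change x 0 + x 1 + x 2 = x 2 + x 0 + x 1
        ring
  set t := T ^ (2 / 3 : ℝ) / ((d 0 : ℝ) * d 1 * d 2) with ht'
  have ht0 : 0 ≤ t := by
    rw [ht']
    have : (0 : ℝ) ≤ T := by linarith
    positivity
  have h1 : hfin.toFinset.card ≤ ∑ j : Fin 3, ∑ m ∈ Finset.range (M + 1), (Fc j m).card :=
    (Finset.card_le_card hcover).trans (Finset.card_biUnion_le.trans
      (Finset.sum_le_sum fun j _ => Finset.card_biUnion_le))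
  have h2 : (hfin.toFinset.card : ℝ) ≤ ∑ j : Fin 3, ∑ m ∈ Finset.range (M + 1), (64 * t + 8) := by
    calc (hfin.toFinset.card : ℝ)
        ≤ ((∑ j : Fin 3, ∑ m ∈ Finset.range (M + 1), (Fc j m).card : ℕ) : ℝ) := by
          exact_mod_cast h1
      _ = ∑ j : Fin 3, ∑ m ∈ Finset.range (M + 1), ((Fc j m).card : ℝ) := by push_cast; rfl
      _ ≤ ∑ j : Fin 3, ∑ m ∈ Finset.range (M + 1), (64 * t + 8) :=
          Finset.sum_le_sum fun j _ => Finset.sum_le_sum fun m _ => hcell j m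
  rw [Finset.sum_const, Finset.sum_const, Finset.card_range, Finset.card_univ, Fintype.card_fin,
    nsmul_eq_mul, nsmul_eq_mul] at h2
  have h3 := cells H hH
  rw [← hM] at h3
  have h4 : ((M + 1 : ℕ) : ℝ) * (64 * t + 8) ≤ 5 * Real.log H * (64 * t + 8) :=
    mul_le_mul_of_nonneg_right h3 (by linarith)
  have h5 : 0 ≤ Real.log H := Real.log_nonneg (by linarith)
  calc (hfin.toFinset.card : ℝ) ≤ ((3 : ℕ) : ℝ) * (((M + 1 : ℕ) : ℝ) * (64 * t + 8)) := h2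
    _ ≤ 3 * (5 * Real.log H * (64 * t + 8)) := by
        push_cast at h4 ⊢
        linarith
    _ ≤ 960 * Real.log H * (t + 1) := by nlinarith

end Pool.Agent.H74.AS
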